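import Pool.Agent.MT100G.Stmts

/-!
# COM: commutators with a nonscalar symplectic matrix
-/

set_option autoImplicit false

namespace Pool.Agent.MT100G.H75

open Matrix Polynomial Pool.Agent.MT100 Pool.Agent.Helper78_MT

section

variable {d : Type} [Fintype d] [DecidableEq d]

/-- a criterion for scalar matrices -/
theorem scal_iff (g : Matrix d d ℂ) :
    Scal g ↔ (∀ i j, i ≠ j → g i j = 0) ∧ ∀ i j, g i i = g j j := by
  constructor
  · rintro ⟨c, rfl⟩
    refine ⟨fun i j h => ?_, fun i j => ?_⟩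
    · rw [Matrix.smul_apply, Matrix.one_apply_ne h, smul_zero]
    · rw [Matrix.smul_apply, Matrix.smul_apply, Matrix.one_apply_eq, Matrix.one_apply_eq]
  · rintro ⟨h1, h2⟩
    by_cases hd : Nonempty d
    · obtain ⟨i0⟩ := hd
      refine ⟨g i0 i0, ?_⟩
      ext i j
      rw [Matrix.smul_apply, smul_eq_mul]
      by_cases h : i = j
      · subst h
        rw [Matrix.one_apply_eq, mul_one]
        exact h2 i i0
      · rw [Matrix.one_apply_ne h, mul_zero]
        exact h1 i j h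
    · refine ⟨0, ?_⟩
      ext i j
      exact absurd ⟨i⟩ hd

/-- a matrix for which all vectors are eigenvectors is a scalar matrix -/
theorem scal_of_eig (a : Matrix d d ℂ) (h : ∀ x : d → ℂ, ∃ c : ℂ, a *ᵥ x = c • x) : Scal a := by
  rw [scal_iff]
  have h1 : ∀ i j, i ≠ j → a i j = 0 := by
    intro i j hij
    obtain ⟨c, hc⟩ := h (Pi.single j 1)
    have := congrFun hc i
    rw [Matrix.mulVec_single_one, Pi.smul_apply, Pi.single_eq_of_ne hij, smul_zero] at this
    exact this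
  refine ⟨h1, fun i j => ?_⟩
  by_cases hij : i = j
  · rw [hij]
  · obtain ⟨c, hc⟩ := h (Pi.single i 1 + Pi.single j 1)
    have e1 := congrFun hc i
    have e2 := congrFun hc j
    rw [Matrix.mulVec_add, Matrix.mulVec_single_one, Matrix.mulVec_single_one] at e1 e2
    simp only [Pi.add_apply, Pi.smul_apply, Pi.single_eq_same, Matrix.col_apply,
      Pi.single_eq_of_ne hij, Pi.single_eq_of_ne (Ne.symm hij), smul_eq_mul, add_zero, zero_add,
      mul_one] at e1 e2
    rw [h1 i j hij, add_zero] at e1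
    rw [h1 j i (Ne.symm hij), zero_add] at e2
    rw [e1, e2]

/-- the matrix of the variables -/
noncomputable def Xm (d : Type) : Matrix d d (MvPolynomial (d × d) ℂ) :=
  Matrix.of fun i j => MvPolynomial.X (i, j)

/-- the polynomial matrix `a g b gᵀ e` -/
noncomputable def Pm (a b e : Matrix d d ℂ) : Matrix d d (MvPolynomial (d × d) ℂ) :=
  a.map MvPolynomial.C * Xm d * b.map MvPolynomial.C * (Xm d)ᵀ * e.map MvPolynomial.C

theorem pev_Pm (a b e g : Matrix d d ℂ) (i j : d) :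
    pev g (Pm a b e i j) = (a * g * b * gᵀ * e) i j := by
  have h1 : ∀ a : Matrix d d ℂ, (pev g : MvPolynomial (d × d) ℂ →ₐ[ℂ] ℂ).mapMatrix
      (a.map MvPolynomial.C) = a := by
    intro a
    ext i j
    rw [AlgHom.mapMatrix_apply, Matrix.map_apply, Matrix.map_apply, pev_C]
    rfl
  have h2 : (pev g : MvPolynomial (d × d) ℂ →ₐ[ℂ] ℂ).mapMatrix (Xm d) = g := by
    ext i j
    rw [AlgHom.mapMatrix_apply, Matrix.map_apply, Xm, Matrix.of_apply, pev_X]
  have h3 : (pev g : MvPolynomial (d × d) ℂ →ₐ[ℂ] ℂ).mapMatrix ((Xm d)ᵀ) = gᵀ := by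
    ext i j
    rw [AlgHom.mapMatrix_apply, Matrix.map_apply, Matrix.transpose_apply, Xm, Matrix.of_apply,
      pev_X, Matrix.transpose_apply]
  have h4 : (pev g : MvPolynomial (d × d) ℂ →ₐ[ℂ] ℂ).mapMatrix (Pm a b e) =
      a * g * b * gᵀ * e := by
    rw [Pm, map_mul, map_mul, map_mul, map_mul, h1, h1, h1, h2, h3]
  exact congrFun (congrFun h4 i) j

theorem com_aux (J0 : Matrix d d ℚ) (hsk : J0ᵀ = -J0) (hu : IsUnit J0.det)
    (M : Set (Matrix d d ℂ))
    (hden : ∀ f : MvPolynomial (d × d) ℂ, (∀ g ∈ M, pev g f = 0) → ∀ g ∈ Aut J0, pev g f = 0)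
    (hM : M ⊆ Aut J0) (a : Matrix d d ℂ) (ha : a ∈ Aut J0)
    (hcon : ∀ m ∈ M, Scal (a * m * a⁻¹ * m⁻¹)) : Scal a := by
  obtain ⟨J, hJ⟩ : ∃ J : Matrix d d ℂ, J = J0.map (algebraMap ℚ ℂ) := ⟨_, rfl⟩
  have hJu : IsUnit J.det := by
    rw [hJ]
    have : (J0.map (algebraMap ℚ ℂ)).det = algebraMap ℚ ℂ J0.det :=
      ((algebraMap ℚ ℂ).map_det J0).symm
    rw [this]
    exact hu.map _
  have hJs : Jᵀ = -J := by
    rw [hJ, ← Matrix.transpose_map, hsk]
    ext i j
    simp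
  have hinv : ∀ g ∈ Aut J0, g⁻¹ = J⁻¹ * gᵀ * J := by
    intro g hg
    apply Matrix.inv_eq_left_inv
    have hg' : gᵀ * J * g = J := by rw [hJ]; exact hg
    calc J⁻¹ * gᵀ * J * g = J⁻¹ * (gᵀ * J * g) := by simp only [Matrix.mul_assoc]
      _ = 1 := by rw [hg', Matrix.nonsing_inv_mul _ hJu]
  have hunit : ∀ g ∈ Aut J0, IsUnit g.det := by
    intro g hg
    have hg' : gᵀ * J * g = J := by rw [hJ]; exact hg
    have h1 := congrArg Matrix.det hg'
    rw [Matrix.det_mul] at h1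
    rw [← h1] at hJu
    exact isUnit_of_mul_isUnit_right hJu
  have hexp : ∀ g ∈ Aut J0, a * g * a⁻¹ * g⁻¹ = a * g * (a⁻¹ * J⁻¹) * gᵀ * J := by
    intro g hg
    rw [hinv g hg]
    simp only [Matrix.mul_assoc]
  have hall : ∀ g ∈ Aut J0, Scal (a * g * a⁻¹ * g⁻¹) := by
    intro g hg
    rw [scal_iff, hexp g hg]
    constructor
    · intro i j hij
      rw [← pev_Pm]
      refine hden _ (fun m hm => ?_) g hg
      rw [pev_Pm, ← hexp m (hM hm)]
      exact ((scal_iff _).mp (hcon m hm)).1 i j hij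
    · intro i j
      have h1 : pev g (Pm a (a⁻¹ * J⁻¹) J i i - Pm a (a⁻¹ * J⁻¹) J j j) = 0 := by
        refine hden _ (fun m hm => ?_) g hg
        rw [map_sub, pev_Pm, pev_Pm, ← hexp m (hM hm), sub_eq_zero]
        exact ((scal_iff _).mp (hcon m hm)).2 i j
      rw [map_sub, pev_Pm, pev_Pm, sub_eq_zero] at h1
      exact h1
  by_cases hd : Nonempty d
  swap
  · rw [scal_iff]
    exact ⟨fun i => absurd ⟨i⟩ hd, fun i => absurd ⟨i⟩ hd⟩
  have hcard : (Fintype.card d : ℂ) ≠ 0 := by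
    have := Fintype.card_pos_iff.mpr hd
    exact_mod_cast this.ne'
  apply scal_of_eig
  intro x
  by_cases hx : x = 0
  · refine ⟨0, ?_⟩
    rw [hx, Matrix.mulVec_zero, smul_zero]
  obtain ⟨y, hy⟩ : ∃ y, y = x ᵥ* J := ⟨_, rfl⟩
  have hyx : y ⬝ᵥ x = 0 := by
    have h1 : y ⬝ᵥ x = -(y ⬝ᵥ x) := by
      have h2 : y ⬝ᵥ x = x ⬝ᵥ (J *ᵥ x) := by rw [hy, Matrix.dotProduct_mulVec]
      have h3 : x ⬝ᵥ (J *ᵥ x) = x ⬝ᵥ (Jᵀ *ᵥ x) := by
        rw [Matrix.mulVec_transpose, Matrix.dotProduct_mulVec, dotProduct_comm]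
      rw [hJs, Matrix.neg_mulVec, dotProduct_neg, ← h2] at h3
      exact h3
    exact self_eq_neg.mp h1
  have hy0 : y ≠ 0 := by
    intro h
    apply hx
    have h1 : x ᵥ* J ᵥ* J⁻¹ = 0 := by rw [← hy, h, Matrix.zero_vecMul]
    rwa [Matrix.vecMul_vecMul, Matrix.mul_nonsing_inv _ hJu, Matrix.vecMul_one] at h1
  obtain ⟨T, hT⟩ : ∃ T, T = 1 + vecMulVec x y := ⟨_, rfl⟩
  have hJx : J *ᵥ x = -y := by
    rw [hy, ← Matrix.mulVec_transpose, hJs, Matrix.neg_mulVec, neg_neg]
  have hTA : T ∈ Aut J0 := by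
    show Tᵀ * J0.map (algebraMap ℚ ℂ) * T = J0.map (algebraMap ℚ ℂ)
    rw [← hJ]
    have h1 : Tᵀ = 1 + vecMulVec y x := by
      rw [hT, Matrix.transpose_add, Matrix.transpose_one, Matrix.transpose_vecMulVec]
    have h2 : vecMulVec y x * J = vecMulVec y y := by
      rw [Matrix.vecMulVec_mul, ← hy]
    have h3 : J * vecMulVec x y = -vecMulVec y y := by
      rw [Matrix.mul_vecMulVec, hJx, Matrix.neg_vecMulVec]
    have h4 : vecMulVec y y * vecMulVec x y = 0 := by
      rw [Matrix.vecMulVec_mul_vecMulVec, hyx, zero_smul, Matrix.vecMulVec_zero]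
    rw [h1, hT]
    calc (1 + vecMulVec y x) * J * (1 + vecMulVec x y)
        = J + J * vecMulVec x y + vecMulVec y x * J + vecMulVec y x * J * vecMulVec x y := by
          noncomm_ring
      _ = J := by
        rw [h2, h3, h4]
        abel
  obtain ⟨c, hc⟩ := hall T hTA
  have hTu := hunit T hTA
  have hau := hunit a ha
  have h5 : a * T * a⁻¹ = c • T := by
    have h6 : a * T * a⁻¹ * T⁻¹ * T = (c • (1 : Matrix d d ℂ)) * T := by rw [hc]
    rwa [Matrix.mul_assoc (a * T * a⁻¹), Matrix.nonsing_inv_mul _ hTu, Matrix.mul_one,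
      Matrix.smul_mul, Matrix.one_mul] at h6
  have htr : T.trace = (Fintype.card d : ℂ) := by
    rw [hT, Matrix.trace_add, Matrix.trace_one, Matrix.trace_vecMulVec, dotProduct_comm, hyx,
      add_zero]
  have hc1 : c = 1 := by
    have h6 := congrArg Matrix.trace h5
    rw [Matrix.trace_smul, Matrix.trace_mul_comm, ← Matrix.mul_assoc, Matrix.nonsing_inv_mul _ hau,
      Matrix.one_mul, htr, smul_eq_mul] at h6
    have h7 : (c - 1) * (Fintype.card d : ℂ) = 0 := by
      rw [sub_mul, one_mul, ← h6, sub_self]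
    exact sub_eq_zero.mp ((mul_eq_zero.mp h7).resolve_right hcard)
  have h8 : a * T = T * a := by
    rw [hc1, one_smul] at h5
    calc a * T = a * T * a⁻¹ * a := by
          rw [Matrix.mul_assoc (a * T), Matrix.nonsing_inv_mul _ hau, Matrix.mul_one]
      _ = T * a := by rw [h5]
  have h9 : vecMulVec (a *ᵥ x) y = vecMulVec x (y ᵥ* a) := by
    rw [hT, Matrix.mul_add, Matrix.add_mul, Matrix.mul_one, Matrix.one_mul, Matrix.mul_vecMulVec,
      Matrix.vecMulVec_mul] at h8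
    exact add_left_cancel h8
  obtain ⟨k, hk⟩ := Function.ne_iff.mp hy0
  refine ⟨(y ᵥ* a) k / y k, ?_⟩
  funext i
  have h10 := congrFun (congrFun h9 i) k
  rw [Matrix.vecMulVec_apply, Matrix.vecMulVec_apply] at h10
  rw [Pi.smul_apply, smul_eq_mul, div_mul_eq_mul_div, eq_div_iff hk, h10]
  ring

end

theorem com : ComStmt := by
  intro d _ _ J0 hsk hu M hden hM a ha hns
  by_contra hcon
  apply hns
  refine com_aux J0 hsk hu M hden hM a ha fun m hm => ?_
  by_contra h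
  exact hcon ⟨m, hm, h⟩

end Pool.Agent.MT100G.H75

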