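import Pool.Agent.Helper78_MTG.ExStmts
import Pool.Agent.Helper27_MT.Trp

/-!
MT100-GEN, module EX1: the hypergeometric system with integral coefficients.
-/

set_option autoImplicit false

namespace Pool.Agent.MT100G.H75

open Matrix PowerSeries Pool.Agent.MT100 Pool.Agent.MT100.H27

/-- a system with rational coefficients, with the same nilpotent matrix; the new polynomial `q` is
a multiple of the old one -/
theorem gsys_of_rat_c {d : Type*} [Fintype d] [DecidableEq d] {H K : Matrix d d (PowerSeries ℚ)}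
    {N : Matrix d d ℤ} {q : Polynomial ℚ} {B : Matrix d d (Polynomial ℚ)} (inv : H * K = 1)
    (one : ∀ i j, PowerSeries.constantCoeff (H i j) = if i = j then 1 else 0)
    (nil : IsNilpotent N) (q0 : q ≠ 0)
    (ode : ((q : PowerSeries ℚ) * PowerSeries.X) • H.map dv =
      B.map (fun p => (p : PowerSeries ℚ)) * H -
        (q : PowerSeries ℚ) • (H * N.map (fun x => (x : PowerSeries ℚ))))
    (gH : ∀ i j, GType (H i j)) (gK : ∀ i j, GType (K i j)) :
    ∃ (q' : Polynomial ℤ) (B' : Matrix d d (Polynomial ℤ)), GSys H K N q' B' ∧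
      ∃ c : ℚ, c ≠ 0 ∧ zq q' = Polynomial.C c * q := by
  obtain ⟨c, hc, hz⟩ := denom (fun o : Option (d × d) => o.elim q fun p => B p.1 p.2)
  obtain ⟨q', hq'⟩ := hz none
  choose B' hB' using fun i j => hz (some (i, j))
  have hcQ : ((c : ℤ) : ℚ) ≠ 0 := by exact_mod_cast hc
  have e0 : zq q' = Polynomial.C (c : ℚ) * q := hq'
  have e1 : zp q' = C (c : ℚ) * (q : PowerSeries ℚ) := by
    unfold zp
    rw [e0, Polynomial.coe_mul, Polynomial.coe_C]
  have e2 : (Matrix.of B').map zp = C (c : ℚ) • B.map (fun p => (p : PowerSeries ℚ)) := by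
    refine Matrix.ext fun i j => ?_
    rw [Matrix.map_apply, Matrix.of_apply, Matrix.smul_apply, Matrix.map_apply, smul_eq_mul]
    unfold zp
    rw [hB']
    change ((Polynomial.C (c : ℚ) * B i j : Polynomial ℚ) : PowerSeries ℚ) = _
    rw [Polynomial.coe_mul, Polynomial.coe_C]
  refine ⟨q', Matrix.of B', ⟨inv, one, nil, ?_, ?_, gH, gK⟩, c, hcQ, e0⟩
  · intro h0
    rw [h0] at e0
    have h1 : zq (0 : Polynomial ℤ) = 0 := by
      unfold zq
      exact Polynomial.map_zero _
    rw [h1] at e0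
    exact mul_ne_zero (Polynomial.C_ne_zero.mpr hcQ) q0 e0.symm
  · rw [e1, e2, mul_assoc, mul_smul, ode, smul_sub, Matrix.smul_mul, mul_smul]

/-- EX1 -/
theorem ex1 (hyp : HypStmt) (pai : PaiStmt) (hgt : HgtStmt) : Ex1Stmt := by
  intro D
  obtain ⟨y1, y2⟩ := hyp D
  obtain ⟨p1, p2⟩ := pai D
  obtain ⟨Jc, hJc⟩ : ∃ Jc : Matrix (Fin D.r) (Fin D.r) (PowerSeries ℚ),
      Jc = (J0 D.r).map (fun x => PowerSeries.C x) := ⟨_, rfl⟩
  rw [← hJc] at p2
  have hJ2 : Jc * Jc = -1 := by
    have h1 : Jc * Jc = (J0 D.r * J0 D.r).map (fun x => PowerSeries.C x) := by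
      rw [hJc]
      exact (Matrix.map_mul (f := (PowerSeries.C : ℚ →+* PowerSeries ℚ))).symm
    rw [h1, J0_sq]
    refine Matrix.ext fun a c => ?_
    rw [Matrix.map_apply, Matrix.neg_apply, Matrix.neg_apply, map_neg]
    congr 1
    by_cases h : a = c
    · rw [h, Matrix.one_apply_eq, Matrix.one_apply_eq, map_one]
    · rw [Matrix.one_apply_ne h, Matrix.one_apply_ne h, map_zero]
  obtain ⟨K0, hK0⟩ : ∃ K0 : Matrix (Fin D.r) (Fin D.r) (PowerSeries ℚ),
      K0 = -(Jc * ((Hyp D)ᵀ * (Jm D).map (fun p => (p : PowerSeries ℚ)))) := ⟨_, rfl⟩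
  have hinv0 : Hyp D * K0 = 1 := by
    rw [mul_eq_one_comm, hK0, Matrix.neg_mul, Matrix.mul_assoc, p2, hJ2, neg_neg]
  have hq : (1 - Polynomial.C D.lam * Polynomial.X : Polynomial ℚ) ≠ 0 := by
    intro h0
    have h1 := congrArg (Polynomial.eval 0) h0
    simp at h1
  have hgK : ∀ i j, GType (K0 i j) := by
    intro i j
    rw [hK0, Matrix.neg_apply]
    apply Helper5_MT100.gneg
    apply gtype_mmul
    · intro i j
      rw [hJc, Matrix.map_apply]
      exact Helper5_MT100.gconst _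
    · apply gtype_mmul
      · intro i j
        rw [Matrix.transpose_apply]
        exact hgt D j i
      · intro i j
        rw [Matrix.map_apply]
        exact Helper5_MT100.gpoly _
  obtain ⟨q', B', h, hc⟩ := gsys_of_rat_c hinv0 y1 (Nsh_nil _) hq y2 (hgt D) hgK
  exact ⟨K0, q', B', h, hc⟩

end Pool.Agent.MT100G.H75
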