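import Pool.Agent.Helper78_MTG.ExStmts
import Pool.Agent.Helper27_MT.Trp
import Pool.Agent.Helper43_MT100G.Bas

/-!
MT100-GEN, module EX2: the fundamental matrix of the hypergeometric system on the half plane
`re w > λ`.
-/

set_option autoImplicit false

namespace Pool.Agent.MT100G.H75

open Matrix Polynomial Pool.Agent.MT100 Pool.Agent.MT100G.H43

/-- convergence in the disc of radius `1/λ` -/
theorem growth_near {f : PowerSeries ℚ} {lam : ℚ} (hlam : 0 < lam) {C : ℕ}
    (hf : ∀ k, |PowerSeries.coeff k f| ≤ (C : ℚ) * ((k : ℚ) + 1) ^ C * lam ^ k) :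
    ∀ x : ℂ, ‖x‖ < (lam : ℝ)⁻¹ →
      AC f x ∧ AC (dv f) x ∧ HasDerivAt (evC f) (evC (dv f) x) x := by
  intro x hx
  have hl : (0 : ℝ) < lam := by exact_mod_cast hlam
  obtain ⟨ρ, hρ1, hρ2⟩ := exists_between hx
  have hρ0 : 0 < ρ := lt_of_le_of_lt (norm_nonneg x) hρ1
  obtain ⟨r, hr⟩ : ∃ r : ℝ, r = lam * ρ := ⟨_, rfl⟩
  have hr0 : 0 < r := by rw [hr]; positivity
  have hr1 : r < 1 := by
    rw [hr]
    calc (lam : ℝ) * ρ < lam * (lam : ℝ)⁻¹ := mul_lt_mul_of_pos_left hρ2 hl
      _ = 1 := mul_inv_cancel₀ hl.ne'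
  have hbd : ∀ k, ‖((PowerSeries.coeff k f : ℚ) : ℂ)‖ ≤
      (C : ℝ) * ((k : ℝ) + 1) ^ C * (lam : ℝ) ^ k := by
    intro k
    have h1 : |((PowerSeries.coeff k f : ℚ) : ℝ)| ≤ (C : ℝ) * ((k : ℝ) + 1) ^ C * (lam : ℝ) ^ k := by
      have := hf k
      exact_mod_cast this
    rw [← Complex.ofReal_ratCast, Complex.norm_real, Real.norm_eq_abs]
    exact h1
  -- the majorant
  obtain ⟨u, hu⟩ : ∃ u : ℕ → ℝ, u = fun k : ℕ => (C : ℝ) * lam * (((k : ℝ) + 2) ^ (C + 1) * r ^ k) :=
    ⟨_, rfl⟩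
  have hus : Summable u := by
    have h1 := summable_pow_mul_geometric_of_norm_lt_one (R := ℝ) (C + 1) (r := r)
      (by rw [Real.norm_eq_abs, abs_of_pos hr0]; exact hr1)
    have h2 := (summable_nat_add_iff 2).2 h1
    rw [hu]
    refine Summable.mul_left _ ((h2.mul_left (r ^ 2)⁻¹).congr fun k => ?_)
    push_cast
    rw [pow_add r k 2]
    field_simp
  have hxk : ∀ y : ℂ, ‖y‖ < ρ → ∀ k, (lam : ℝ) ^ k * ‖y‖ ^ k ≤ r ^ k := by
    intro y hy k
    rw [← mul_pow, hr]
    refine pow_le_pow_left₀ (by positivity) ?_ k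
    exact mul_le_mul_of_nonneg_left hy.le hl.le
  have hdc : ∀ k, PowerSeries.coeff k (dv f) = PowerSeries.coeff (k + 1) f * ((k : ℚ) + 1) := by
    intro k
    exact PowerSeries.coeff_derivative f k
  have hd1 : ∀ y : ℂ, ‖y‖ < ρ → ∀ k,
      ‖((PowerSeries.coeff k (dv f) : ℚ) : ℂ) * y ^ k‖ ≤ u k := by
    intro y hy k
    rw [hdc, Rat.cast_mul, norm_mul, norm_mul, norm_pow]
    have h1 : ‖(((k : ℚ) + 1 : ℚ) : ℂ)‖ = (k : ℝ) + 1 := by
      rw [← Complex.ofReal_ratCast, Complex.norm_real, Real.norm_eq_abs]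
      push_cast
      exact abs_of_nonneg (by positivity)
    rw [h1, hu]
    have h2 : ‖((PowerSeries.coeff (k + 1) f : ℚ) : ℂ)‖ ≤
        (C : ℝ) * ((k : ℝ) + 2) ^ C * (lam : ℝ) ^ (k + 1) := by
      have := hbd (k + 1)
      push_cast at this
      have h3 : (k : ℝ) + 1 + 1 = (k : ℝ) + 2 := by ring
      rw [h3] at this
      exact this
    calc ‖((PowerSeries.coeff (k + 1) f : ℚ) : ℂ)‖ * ((k : ℝ) + 1) * ‖y‖ ^ k
        ≤ ((C : ℝ) * ((k : ℝ) + 2) ^ C * (lam : ℝ) ^ (k + 1)) * ((k : ℝ) + 2) * ‖y‖ ^ k := by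
          gcongr
          norm_num
      _ = (C : ℝ) * lam * (((k : ℝ) + 2) ^ (C + 1) * ((lam : ℝ) ^ k * ‖y‖ ^ k)) := by ring
      _ ≤ (C : ℝ) * lam * (((k : ℝ) + 2) ^ (C + 1) * r ^ k) :=
          mul_le_mul_of_nonneg_left (mul_le_mul_of_nonneg_left (hxk y hy k)
            (by positivity)) (by positivity)
  have hf1 : ∀ y : ℂ, ‖y‖ < ρ → AC f y := by
    intro y hy
    unfold AC
    rw [← summable_nat_add_iff 1]
    refine Summable.of_nonneg_of_le (fun k => norm_nonneg _) (fun k => ?_) (hus.mul_left ρ)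
    have h1 := hd1 y hy k
    rw [hdc, Rat.cast_mul] at h1
    have h2 : ((PowerSeries.coeff (k + 1) f : ℚ) : ℂ) * y ^ (k + 1) =
        y * (((PowerSeries.coeff (k + 1) f : ℚ) : ℂ) * y ^ k) := by ring
    rw [h2, norm_mul]
    refine mul_le_mul hy.le ?_ (norm_nonneg _) hρ0.le
    refine le_trans ?_ h1
    have h3 : ((PowerSeries.coeff (k + 1) f : ℚ) : ℂ) * (((k : ℚ) + 1 : ℚ) : ℂ) * y ^ k =
        (((k : ℚ) + 1 : ℚ) : ℂ) * (((PowerSeries.coeff (k + 1) f : ℚ) : ℂ) * y ^ k) := by ring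
    rw [h3, norm_mul (((k : ℚ) + 1 : ℚ) : ℂ)]
    have h4 : ‖(((k : ℚ) + 1 : ℚ) : ℂ)‖ = (k : ℝ) + 1 := by
      rw [← Complex.ofReal_ratCast, Complex.norm_real, Real.norm_eq_abs]
      push_cast
      exact abs_of_nonneg (by positivity)
    rw [h4]
    exact le_mul_of_one_le_left (norm_nonneg _) (by linarith [(Nat.cast_nonneg k : (0 : ℝ) ≤ k)])
  refine ⟨hf1 x hρ1, ?_, ?_⟩
  · exact Summable.of_nonneg_of_le (fun k => norm_nonneg _) (hd1 x hρ1) hus
  · have hder := hasDerivAt_tsum_of_isPreconnected (𝕜 := ℂ) (F := ℂ)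
      (g := fun k y => ((PowerSeries.coeff k f : ℚ) : ℂ) * y ^ k)
      (g' := fun k y => ((PowerSeries.coeff k f : ℚ) : ℂ) * ((k : ℂ) * y ^ (k - 1)))
      (u := fun k => if k = 0 then 0 else u (k - 1)) (t := Metric.ball (0 : ℂ) ρ)
      (y₀ := 0) (y := x) ?_ Metric.isOpen_ball (convex_ball _ _).isPreconnected ?_ ?_
      (Metric.mem_ball_self hρ0) ?_ (by rwa [mem_ball_zero_iff])
    · refine hder.congr_deriv ?_
      unfold evC
      rw [Summable.tsum_eq_zero_add]
      · simp only [Nat.cast_zero, zero_mul, mul_zero, zero_add]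
        refine tsum_congr fun k => ?_
        rw [hdc, Nat.add_sub_cancel]
        push_cast
        ring
      · rw [← summable_nat_add_iff 1]
        refine Summable.of_norm_bounded hus fun k => ?_
        refine le_trans (le_of_eq ?_) (hd1 x hρ1 k)
        rw [hdc, Nat.add_sub_cancel]
        push_cast
        congr 1
        ring
    · rw [← summable_nat_add_iff 1]
      refine hus.congr fun k => ?_
      rw [if_neg (Nat.succ_ne_zero k), Nat.add_sub_cancel]
    · intro k y _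
      exact (hasDerivAt_pow k y).const_mul _
    · intro k y hy
      rw [mem_ball_zero_iff] at hy
      rcases Nat.eq_zero_or_pos k with h0 | h0
      · subst h0
        simp
      · obtain ⟨k, rfl⟩ : ∃ k', k = k' + 1 := ⟨k - 1, by omega⟩
        rw [if_neg (Nat.succ_ne_zero k), Nat.add_sub_cancel]
        refine le_trans (le_of_eq ?_) (hd1 y hy k)
        rw [hdc]
        push_cast
        congr 1
        ring
    · refine (hf1 0 (by rwa [norm_zero])).of_norm.congr fun k => ?_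
      rfl

/-- a solution wherever the power series converge -/
theorem sol_gen {d : Type} [Fintype d] [DecidableEq d] {H K : Matrix d d (PowerSeries ℚ)}
    {N : Matrix d d ℤ} {q : ℤ[X]} {B : Matrix d d ℤ[X]} (hS : GSys H K N q B) {U : Set ℂ}
    (hU : ∀ w ∈ U, w ≠ 0 ∧ 0 < w.re ∧ zC q w⁻¹ ≠ 0 ∧
      IsUnit (H.map (fun f => evC f w⁻¹)).det ∧
      ∀ i j, AC (H i j) w⁻¹ ∧ AC (dv (H i j)) w⁻¹ ∧
        HasDerivAt (evC (H i j)) (evC (dv (H i j)) w⁻¹) w⁻¹) (c : ℂ) (ρ : ℝ) (hρ : 0 < ρ)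
    (hsub : Metric.ball c ρ ⊆ U) : SolOn q B c ρ (YH H N) := by
  have hd : ∀ w ∈ Metric.ball c ρ, IsUnit (YH H N w).det := by
    intro w hw
    obtain ⟨h1, h2, h3, h4, h5⟩ := hU w (hsub hw)
    unfold YH
    rw [Matrix.det_mul]
    refine IsUnit.mul h4 ?_
    have := congrArg Matrix.det (eN_mul_neg N hS.nil (-Complex.log w))
    rw [Matrix.det_mul, Matrix.det_one] at this
    exact IsUnit.of_mul_eq_one _ this
  refine ⟨hρ, fun w hw => ?_, hd, fun w hw i j => ?_⟩
  · obtain ⟨h1, h2, h3, h4, h5⟩ := hU w (hsub hw)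
    exact ⟨h1, h3⟩
  · obtain ⟨h2, h3, hq1, h4, hA⟩ := hU w (hsub hw)
    have hslit : w ∈ Complex.slitPlane := Or.inl h3
    have hlog : HasDerivAt (fun x => -Complex.log x) (-w⁻¹) w :=
      (Complex.hasDerivAt_log hslit).neg
    have hinv : HasDerivAt (fun x : ℂ => x⁻¹) (-(w ^ 2)⁻¹) w := hasDerivAt_inv h2
    have hD : HasDerivAt (fun x => YH H N x i j)
        (∑ k, (evC (dv (H i k)) w⁻¹ * (-(w ^ 2)⁻¹) * eN N (-Complex.log w) k j +
          evC (H i k) w⁻¹ *
            ((N.map (fun y : ℤ => (y : ℂ)) * eN N (-Complex.log w)) k j * (-w⁻¹)))) w := by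
      have he : (fun x => YH H N x i j) =
          fun x => ∑ k, evC (H i k) x⁻¹ * eN N (-Complex.log x) k j := by
        funext x
        unfold YH
        rw [Matrix.mul_apply]
        rfl
      rw [he]
      refine HasDerivAt.fun_sum fun k _ => ?_
      refine HasDerivAt.mul ?_ ?_
      · exact HasDerivAt.comp w (hA i k).2.2 hinv
      · exact HasDerivAt.comp w (eN_deriv N hS.nil (-Complex.log w) k j) hlog
    refine hD.congr_deriv ?_
    -- the differential equation
    set Em := eN N (-Complex.log w) with hEm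
    set Nm : Matrix d d ℂ := N.map (fun y : ℤ => (y : ℂ)) with hNm
    set Hm : Matrix d d ℂ := H.map (fun f => evC f w⁻¹) with hHm
    set Hd : Matrix d d ℂ := H.map (fun f => evC (dv f) w⁻¹) with hHd
    set Bm : Matrix d d ℂ := B.map (fun p => zC p w⁻¹) with hBm
    have hode : (zC q w⁻¹ * w⁻¹) • Hd = Bm * Hm - zC q w⁻¹ • (Hm * Nm) := by
      ext a b
      have h4 := congrArg (fun M : Matrix d d (PowerSeries ℚ) => evC (M a b) w⁻¹) hS.ode
      simp only [Matrix.smul_apply, Matrix.sub_apply, Matrix.map_apply, smul_eq_mul] at h4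
      have hBH := ac_mmul (A := B.map zp) (B := H) (x := w⁻¹)
        (fun i j => (ac_zp (B i j) w⁻¹).1) (fun i j => (hA i j).1)
      have hHN := ac_mmul (A := H) (B := N.map (fun x => (x : PowerSeries ℚ))) (x := w⁻¹)
        (fun i j => (hA i j).1) (fun i j => (ac_int (N i j) w⁻¹).1)
      have hqX := ac_mul (ac_zp q w⁻¹).1 (ac_X w⁻¹).1
      have h5 := ac_mul hqX.1 (hA a b).2.1
      have h6 := ac_mul (ac_zp q w⁻¹).1 (hHN.1 a b)
      have h7 := ac_sub (hBH.1 a b) h6.1
      rw [h5.2, hqX.2, (ac_zp q w⁻¹).2, (ac_X w⁻¹).2, h7.2, h6.2, (ac_zp q w⁻¹).2] at h4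
      have h8 : evC ((B.map zp * H) a b) w⁻¹ = (Bm * Hm) a b := by
        have := congrFun (congrFun hBH.2 a) b
        rw [Matrix.map_apply] at this
        rw [this]
        have h9 : (B.map zp).map (fun f => evC f w⁻¹) = Bm := by
          ext a b
          simp only [Matrix.map_apply, hBm]
          exact (ac_zp _ _).2
        rw [h9]
      have h9 : evC ((H * N.map (fun x => (x : PowerSeries ℚ))) a b) w⁻¹ = (Hm * Nm) a b := by
        have := congrFun (congrFun hHN.2 a) b
        rw [Matrix.map_apply] at this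
        rw [this]
        have h9 : (N.map (fun x => (x : PowerSeries ℚ))).map (fun f => evC f w⁻¹) = Nm := by
          ext a b
          simp only [Matrix.map_apply, hNm]
          exact (ac_int _ _).2
        rw [h9]
      rw [h8, h9] at h4
      simp only [Matrix.smul_apply, Matrix.sub_apply, smul_eq_mul, hHd, Matrix.map_apply]
      exact h4
    have hsum : (∑ k, (evC (dv (H i k)) w⁻¹ * (-(w ^ 2)⁻¹) * Em k j +
          evC (H i k) w⁻¹ * ((Nm * Em) k j * (-w⁻¹)))) =
        (-(w ^ 2)⁻¹) * (Hd * Em) i j + (-w⁻¹) * (Hm * (Nm * Em)) i j := by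
      rw [Finset.sum_add_distrib, Matrix.mul_apply, Matrix.mul_apply, Finset.mul_sum,
        Finset.mul_sum]
      congr 1
      · refine Finset.sum_congr rfl fun k _ => ?_
        simp only [hHd, Matrix.map_apply]
        ring
      · refine Finset.sum_congr rfl fun k _ => ?_
        simp only [hHm, Matrix.map_apply]
        ring
    rw [hsum]
    have hY : YH H N w = Hm * Em := rfl
    rw [hY]
    have h10 : w⁻¹ * (Hd * Em) i j =
        (zC q w⁻¹)⁻¹ * (Bm * (Hm * Em)) i j - (Hm * (Nm * Em)) i j := by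
      have h11 := congrArg (fun M : Matrix d d ℂ => (M * Em) i j) hode
      simp only [Matrix.smul_mul, Matrix.sub_mul, Matrix.smul_apply, Matrix.sub_apply,
        smul_eq_mul, Matrix.mul_assoc] at h11
      have key : ∀ (Q x a b c : ℂ), Q ≠ 0 → Q * x * a = b - Q * c → x * a = Q⁻¹ * b - c := by
        intro Q x a b c hQ h
        have : b = Q * x * a + Q * c := by rw [h]; ring
        rw [this]
        field_simp
        ring
      exact key _ _ _ _ _ hq1 h11
    have h13 : (w ^ 2)⁻¹ * (Hd * Em) i j = w⁻¹ * (w⁻¹ * (Hd * Em) i j) := by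
      field_simp
    rw [neg_mul, h13, h10, mul_inv]
    ring

/-- the real values -/
theorem YH_real {d : Type} [Fintype d] [DecidableEq d] (H : Matrix d d (PowerSeries ℚ))
    (N : Matrix d d ℤ) (w : ℝ) (hw : 0 < w) : YH H N (w : ℂ) =
      (H.map (fun f => ev f w⁻¹) * eN N (-Real.log w)).map (algebraMap ℝ ℂ) := by
  unfold YH
  have h1 : (-Complex.log (w : ℂ)) = ((-Real.log w : ℝ) : ℂ) := by
    rw [Complex.ofReal_neg, Complex.ofReal_log hw.le]
  rw [h1, eN_real]
  have h2 : H.map (fun f => evC f (w : ℂ)⁻¹) =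
      (H.map (fun f => ev f w⁻¹)).map (algebraMap ℝ ℂ) := by
    ext i j
    simp only [Matrix.map_apply]
    rw [← Complex.ofReal_inv, evC_real]
    rfl
  rw [h2]
  exact (Matrix.map_mul (f := algebraMap ℝ ℂ)).symm

/-- EX2 -/
theorem ex2 (pai : PaiStmt) (hgr : HgrStmt) (ens : EnsStmt) : Ex2Stmt := by
  intro D K q B hS
  obtain ⟨c, hc, hq⟩ := hS.q_eq
  obtain ⟨C0, hC0⟩ := hgr D
  have hl : (0 : ℝ) < D.lam := by exact_mod_cast D.lam_pos
  have hzC : ∀ x : ℂ, zC q x = (c : ℂ) * (1 - (D.lam : ℂ) * x) := by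
    intro x
    have h1 : zC q x = ((zq q).map (algebraMap ℚ ℂ)).eval x := by
      unfold zq zC
      rw [Polynomial.map_map]
      congr 2
    rw [h1, hq]
    simp
  refine ⟨?_, ?_⟩
  · refine sol_gen hS.sys ?_
    intro w hw
    have hw' : (D.lam : ℝ) < w.re := hw
    have hre : 0 < w.re := hl.trans hw'
    have hw0 : w ≠ 0 := by
      rintro rfl
      simp at hre
    have hn : (D.lam : ℝ) < ‖w‖ := lt_of_lt_of_le hw' (Complex.re_le_norm w)
    have hinv : ‖w⁻¹‖ < (D.lam : ℝ)⁻¹ := by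
      rw [norm_inv]
      exact inv_strictAnti₀ hl hn
    have hA := fun i j => growth_near D.lam_pos (hC0 i j) w⁻¹ hinv
    refine ⟨hw0, hre, ?_, ?_, hA⟩
    · rw [hzC]
      refine mul_ne_zero (by exact_mod_cast hc) ?_
      intro h
      have h1 : (D.lam : ℂ) = w := by
        have : (D.lam : ℂ) * w⁻¹ = 1 := by linear_combination -h
        field_simp at this
        exact this
      rw [← h1] at hw'
      simp at hw'
    · -- the pairing
      obtain ⟨p1, p2⟩ := pai D
      have e1 := ac_mmul (A := (Hyp D)ᵀ) (B := (Jm D).map (fun p => (p : PowerSeries ℚ)))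
        (x := w⁻¹) (fun i j => by
          rw [Matrix.transpose_apply]
          exact (hA j i).1) (fun i j => by
          rw [Matrix.map_apply]
          exact (ac_poly _ _).1)
      have e2 := ac_mmul (A := (Hyp D)ᵀ * (Jm D).map (fun p => (p : PowerSeries ℚ)))
        (B := Hyp D) (x := w⁻¹) e1.1 (fun i j => (hA i j).1)
      rw [p2] at e2
      have e3 := e2.2
      have e4 : ((J0 D.r).map (fun x => PowerSeries.C x)).map (fun f => evC f w⁻¹) =
          (J0 D.r).map (algebraMap ℚ ℂ) := by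
        ext i j
        simp only [Matrix.map_apply]
        have h := (ac_poly (C (J0 D.r i j)) w⁻¹).2
        rw [Polynomial.coe_C] at h
        rw [h, Polynomial.map_C, Polynomial.eval_C]
      rw [e4] at e3
      have e5 := congrArg Matrix.det e3
      rw [Matrix.det_mul] at e5
      have e6 : ((J0 D.r).map (algebraMap ℚ ℂ)).det ≠ 0 := by
        have h1 : ((J0 D.r).map (algebraMap ℚ ℂ)).det = algebraMap ℚ ℂ (J0 D.r).det :=
          (RingHom.map_det (algebraMap ℚ ℂ) (J0 D.r)).symm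
        rw [h1]
        have h2 := congrArg Matrix.det (Pool.Agent.MT100.H27.J0_sq D.s)
        rw [Matrix.det_mul] at h2
        intro h0
        have h3 : (J0 D.r).det = 0 := (map_eq_zero _).1 h0
        have h4 : (J0 (2 * D.s)).det = 0 := h3
        rw [h4, zero_mul] at h2
        have h5 : IsUnit (-1 : Matrix (Fin (2 * D.s)) (Fin (2 * D.s)) ℚ).det := by
          rw [← Matrix.isUnit_iff_isUnit_det]
          exact isUnit_one.neg
        rw [← h2] at h5
        exact not_isUnit_zero h5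
      rw [isUnit_iff_ne_zero]
      intro h0
      apply e6
      rw [e5]
      have h7 : (Matrix.map (Hyp D) (fun f => evC f w⁻¹)).det = 0 := h0
      rw [h7, mul_zero]
  · intro w hw
    rw [YH_real _ _ _ (hl.trans hw), ens D.r ℝ]
    rfl

end Pool.Agent.MT100G.H75
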